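import Pool.Agent.P.MP_2a8a61_ag.Main

/-! Existence of the discriminant: the degenerate forms are the zeros of one irreducible
polynomial. -/

set_option linter.unusedSectionVars false
set_option maxHeartbeats 400000

namespace Pool.Agent.P.MP_2a8a61_ag

open MvPolynomial Matrix
open scoped Pointwise

variable {ι : Type} [DecidableEq ι] [Fintype ι]

lemma exists_X_pow_mem {f : MvPolynomial ι ℂ}
    (hf : ∀ z : ι → ℂ, (∀ j, eval z (pderiv j f) = 0) → z = 0) (i : ι) :
    ∃ N, X i ^ N ∈ Jac f := by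
  have h : (X i : MvPolynomial ι ℂ) ∈ vanishingIdeal ℂ (zeroLocus ℂ (Jac f)) := by
    intro z hz
    have : z = 0 := hf z fun j => by
      have := hz (pderiv j f) (Ideal.subset_span ⟨j, rfl⟩)
      simpa using this
    simp [this]
  rw [vanishingIdeal_zeroLocus_eq_radical] at h
  exact h

lemma exists_degree_mem {f : MvPolynomial ι ℂ}
    (hf : ∀ z : ι → ℂ, (∀ j, eval z (pderiv j f) = 0) → z = 0) :
    ∃ D, ∀ g : MvPolynomial ι ℂ, g.IsHomogeneous D → g ∈ Jac f := by
  choose N hN using exists_X_pow_mem hf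
  refine ⟨∑ i, N i + 1, fun g hg => ?_⟩
  rw [g.as_sum]
  refine Ideal.sum_mem _ fun m hm => ?_
  have hdeg : ∑ i, m i = ∑ i, N i + 1 := by
    by_contra hcon
    exact mem_support_iff.1 hm (hg.coeff_eq_zero (by rwa [Finsupp.degree_eq_sum]))
  have hex : ∃ i, N i ≤ m i := by
    by_contra hcon
    push Not at hcon
    have := Finset.sum_le_sum (s := Finset.univ) (f := fun i => m i) (g := N)
      fun i _ => (hcon i).le
    omega
  obtain ⟨i, hi⟩ := hex
  have : monomial m (coeff m g) =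
      monomial (m - Finsupp.single i (N i)) (coeff m g) * X i ^ N i := by
    rw [X_pow_eq_monomial, monomial_mul, mul_one, tsub_add_cancel_of_le]
    exact Finsupp.single_le_iff.2 hi
  rw [this]
  exact Ideal.mul_mem_left _ _ (hN i)

/-- A nondegenerate form is separated from the degenerate ones by a polynomial. -/
lemma exists_vanAt_ne_zero {d : ℕ} {f : MvPolynomial ι ℂ} (hfd : f.IsHomogeneous d)
    (hf : ∀ z : ι → ℂ, (∀ j, eval z (pderiv j f) = 0) → z = 0) :
    ∃ P : Co ι d, (∀ i, VanAt d i P) ∧ evAt d f P ≠ 0 := by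
  obtain ⟨D, hD⟩ := exists_degree_mem hf
  have hle : homogeneousSubmodule ι (Co ι d) D ≤
      (Jac (UF ι d)).restrictScalars (Co ι d) ⊔
        RingHom.ker (evAt d f) • homogeneousSubmodule ι (Co ι d) D := by
    intro g hg
    obtain ⟨u, hu, hJ, hc⟩ := exists_lift hfd hg (hD _ (IsHomogeneous.map hg _))
    have e : g = (g - u) + u := by ring
    rw [e]
    refine Submodule.add_mem_sup hJ ?_
    rw [u.as_sum]
    refine Submodule.sum_mem _ fun m hm => ?_
    have : monomial m (coeff m u) = coeff m u • monomial m (1 : Co ι d) := by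
      rw [smul_monomial, smul_eq_mul, mul_one]
    rw [this]
    refine Submodule.smul_mem_smul (hc m) (isHomogeneous_monomial _ ?_)
    by_contra hcon
    exact mem_support_iff.1 hm (hu.coeff_eq_zero hcon)
  obtain ⟨P, hP1, hP⟩ := Submodule.exists_sub_one_mem_and_smul_le_of_fg_of_le_sup
    (homogeneousSubmodule_fg ι (Co ι d) D) le_rfl hle
  refine ⟨P, fun i => vanAt_of_inertia (N := D) ?_, ?_⟩
  · have h1 : P • (X i ^ D : MvPolynomial ι (Co ι d)) ∈
        P • homogeneousSubmodule ι (Co ι d) D :=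
      Submodule.smul_mem_pointwise_smul _ _ _ (isHomogeneous_X_pow i D)
    have h2 := hP h1
    rw [Submodule.restrictScalars_mem, smul_eq_C_mul, mul_comm] at h2
    exact h2
  · have : evAt d f (P - 1) = 0 := hP1
    rw [map_sub, map_one, sub_eq_zero] at this
    rw [this]; exact one_ne_zero

lemma fermat_isHomogeneous (d : ℕ) :
    (∑ i, X i ^ d : MvPolynomial ι ℂ).IsHomogeneous d :=
  IsHomogeneous.sum _ _ _ fun i _ => isHomogeneous_X_pow i d

lemma fermat_nondegenerate {d : ℕ} (hd : 2 ≤ d) (z : ι → ℂ)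
    (h : ∀ j, eval z (pderiv j (∑ i, X i ^ d : MvPolynomial ι ℂ)) = 0) : z = 0 := by
  funext j
  have h1 := h j
  rw [map_sum, Finset.sum_eq_single j, pderiv_pow, pderiv_X_self] at h1
  · simp only [mul_one, map_mul, map_natCast, map_pow, eval_X, mul_eq_zero,
      Nat.cast_eq_zero] at h1
    rcases h1 with h1 | h1
    · omega
    · exact pow_eq_zero_iff (by omega) |>.1 h1
  · intro b _ hb
    rw [pderiv_pow, pderiv_X_of_ne hb, mul_zero]
  · simp

theorem exists_discriminant [Nonempty ι] {d : ℕ} (hd : 2 ≤ d) :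
    ∃ Δ : Co ι d, Irreducible Δ ∧ ∀ f : MvPolynomial ι ℂ, f.IsHomogeneous d →
      (evAt d f Δ = 0 ↔ ∃ z : ι → ℂ, z ≠ 0 ∧ ∀ j, eval z (pderiv j f) = 0) := by
  obtain ⟨i0⟩ := ‹Nonempty ι›
  have hprime := ker_sigma_isPrime d i0
  obtain ⟨P0, hP0, hP0'⟩ := exists_vanAt_ne_zero (fermat_isHomogeneous (ι := ι) d)
    (fermat_nondegenerate hd)
  have hne : RingHom.ker (sigmaMap d i0 (Loc d i0)) ≠ ⊥ := by
    intro h
    have := (mem_ker_sigma_iff hd i0 P0).2 (hP0 i0)
    rw [h, Ideal.mem_bot] at this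
    exact hP0' (by rw [this, map_zero])
  obtain ⟨π, hπ, hπp⟩ := hprime.exists_mem_prime_of_ne_bot hne
  have hπv : ∀ i, VanAt d i π := vanAt_of_vanAt hd ((mem_ker_sigma_iff hd i0 π).1 hπ)
  obtain ⟨lπ, hlπ⟩ := exists_isLam hd hπv
  have hdvd : ∀ P : Co ι d, (∀ i, VanAt d i P) → π ∣ P := by
    intro P hP
    by_contra hnd
    obtain ⟨lam, hlam⟩ := exists_isLam hd hP
    have h1 : ∀ m : ι →₀ ℕ, ∃ μ, m.degree = Fintype.card ι * (d - 2) → lπ m = π * μ := by
      intro m
      by_cases hm : m.degree = Fintype.card ι * (d - 2)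
      · have h2 : π * lam m - P * lπ m = 0 := by
          apply eq_zero_of_mul_hess_mem hd
          have := sub_mem (Ideal.mul_mem_left _ (C P) (hlπ m hm))
            (Ideal.mul_mem_left _ (C π) (hlam m hm))
          convert this using 1
          rw [map_sub, map_mul, map_mul]; ring
        have h3 : π ∣ P * lπ m := ⟨lam m, (sub_eq_zero.1 h2).symm⟩
        obtain ⟨μ, hμ⟩ := (hπp.dvd_or_dvd h3).resolve_left hnd
        exact ⟨μ, fun _ => hμ⟩
      · exact ⟨0, fun h => absurd h hm⟩
    choose μ hμ using h1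
    have h4 := hlπ.eq_sum hd (hess_isHomogeneous d) (by rw [sub_self]; exact zero_mem _)
    have h5 : π * 1 = π * ∑ m ∈ (HM (UF ι d)).det.support, coeff m (HM (UF ι d)).det * μ m := by
      rw [mul_one, Finset.mul_sum]
      refine h4.trans (Finset.sum_congr rfl fun m hm => ?_)
      rw [hμ m, mul_left_comm]
      by_contra hcon
      exact mem_support_iff.1 hm ((hess_isHomogeneous d).coeff_eq_zero hcon)
    have h6 := congrArg (evAt d (0 : MvPolynomial ι ℂ)) (mul_left_cancel₀ hπp.ne_zero h5)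
    have h7 : map (evAt d (0 : MvPolynomial ι ℂ)) (HM (UF ι d)).det = 0 := by
      rw [map_det_HM, map_evAt_UF (isHomogeneous_zero _ _ _)]
      exact Matrix.det_eq_zero_of_row_eq_zero i0 fun j => by simp [HM]
    rw [map_one, map_sum, Finset.sum_eq_zero] at h6
    · exact one_ne_zero h6
    · intro m _
      rw [map_mul, ← coeff_map, h7, coeff_zero, zero_mul]
  refine ⟨π, hπp.irreducible, fun f hf => ⟨fun h0 => ?_, ?_⟩⟩
  · by_contra hcon
    push Not at hcon
    obtain ⟨P, hP, hP'⟩ := exists_vanAt_ne_zero hf fun z hz => by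
      by_contra hz0
      obtain ⟨j, hj⟩ := hcon z hz0
      exact hj (hz j)
    obtain ⟨Q, rfl⟩ := hdvd P hP
    exact hP' (by rw [map_mul, h0, zero_mul])
  · rintro ⟨z, hz, hs⟩
    obtain ⟨i, hi⟩ := Function.ne_iff.1 hz
    exact hπv i f hf z hi hs

end Pool.Agent.P.MP_2a8a61_ag
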