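import Pool.Agent.P.MP_2a8a61_ag.Reg

/-! The exchange argument: inertia forms of the critical degree are multiples of the
determinant, modulo the ideal. -/

set_option linter.unusedSectionVars false

namespace Pool.Agent.P.MP_2a8a61_ag

open MvPolynomial Matrix

attribute [local instance] MvPolynomial.gradedAlgebra

section Cramer

variable {R : Type*} [CommRing R] {ι : Type*} [DecidableEq ι] [Fintype ι]

lemma det_exchange (B : Matrix ι ι R) (z b : ι → R) (k : ι) :
    B.det * (b ⬝ᵥ z) - (B.updateRow k b).det * (B *ᵥ z) k ∈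
      Ideal.span ((fun i => (B *ᵥ z) i) '' {i | i ≠ k}) := by
  have h1 : B.det • z = B.adjugate *ᵥ (B *ᵥ z) := by
    rw [Matrix.mulVec_mulVec, Matrix.adjugate_mul, Matrix.smul_mulVec, Matrix.one_mulVec]
  have h2 : B.det * (b ⬝ᵥ z) = (b ᵥ* B.adjugate) ⬝ᵥ (B *ᵥ z) := by
    rw [← Matrix.dotProduct_mulVec, ← h1, dotProduct_smul, smul_eq_mul]
  have h3 : (b ᵥ* B.adjugate) k = (B.updateRow k b).det := by
    rw [← Matrix.cramer_transpose_apply, Matrix.cramer_eq_adjugate_mulVec,
      ← Matrix.adjugate_transpose, Matrix.mulVec_transpose]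
  rw [h2, dotProduct, ← Finset.add_sum_erase _ _ (Finset.mem_univ k), h3, add_sub_cancel_left]
  refine Ideal.sum_mem _ fun i hi => Ideal.mul_mem_left _ _ (Ideal.subset_span ?_)
  exact ⟨i, (Finset.mem_erase.1 hi).1, rfl⟩

end Cramer

section Comp

variable {A : Type*} [CommRing A] {σ : Type*}

lemma comp_mul_of_isHomogeneous (v x : MvPolynomial σ A) {a : ℕ} (hx : x.IsHomogeneous a)
    (b : ℕ) : homogeneousComponent (b + a) (v * x) = homogeneousComponent b v * x := by
  classical
  conv_lhs => rw [← sum_homogeneousComponent v, Finset.sum_mul, map_sum]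
  have h : ∀ i, homogeneousComponent (b + a) (homogeneousComponent i v * x) =
      if i = b then homogeneousComponent b v * x else 0 := by
    intro i
    have hm : homogeneousComponent i v * x ∈ homogeneousSubmodule σ A (i + a) :=
      (homogeneousComponent_isHomogeneous i v).mul hx
    rw [homogeneousComponent_of_mem hm]
    by_cases hi : i = b
    · subst hi; simp
    · rw [if_neg (by omega), if_neg hi]
  simp_rw [h]
  rw [Finset.sum_ite_eq']
  split_ifs with hb
  · rfl
  · rw [homogeneousComponent_eq_zero, zero_mul]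
    simpa using hb

lemma comp_mem_span {G : Set (MvPolynomial σ A)} (hG : ∀ g ∈ G, ∃ a, g.IsHomogeneous a)
    {u : MvPolynomial σ A} (hu : u ∈ Ideal.span G) (b : ℕ) :
    homogeneousComponent b u ∈ Ideal.span G :=
  homogeneousComponent_mem_of_mem
    (Ideal.homogeneous_span _ G fun g hg => hG g hg) hu b

end Comp

section Main

variable {A : Type*} [CommRing A] {ι : Type*} [DecidableEq ι] [Fintype ι]

/-- Rows in `S` are those of `M`; the others are those of the diagonal matrix of `X i ^ N`. -/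
noncomputable def mixM (M : Matrix ι ι (MvPolynomial ι A)) (N : ℕ) (S : Finset ι) :
    Matrix ι ι (MvPolynomial ι A) :=
  Matrix.of fun i j => if i ∈ S then M i j else if i = j then X i ^ N else 0

lemma mixM_mulVec (M : Matrix ι ι (MvPolynomial ι A)) (N : ℕ) (S : Finset ι) (i : ι) :
    (mixM M N S *ᵥ X) i = if i ∈ S then (M *ᵥ X) i else X i ^ (N + 1) := by
  simp only [mixM, mulVec, dotProduct, of_apply]
  split_ifs with h
  · rfl
  · simp [pow_succ]

lemma mixM_insert (M : Matrix ι ι (MvPolynomial ι A)) (N : ℕ) (S : Finset ι) (k : ι) :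
    mixM M N (insert k S) = (mixM M N S).updateRow k (M k) := by
  ext1 i j
  by_cases h : i = k
  · subst h; simp [mixM]
  · simp [mixM, h]

lemma mixM_univ (M : Matrix ι ι (MvPolynomial ι A)) (N : ℕ) : mixM M N Finset.univ = M := by
  ext1 i j; simp [mixM]

lemma mixM_empty (M : Matrix ι ι (MvPolynomial ι A)) (N : ℕ) :
    mixM M N ∅ = Matrix.diagonal fun i => X i ^ N := by
  ext1 i j; simp [mixM, Matrix.diagonal_apply]

lemma isHomogeneous_det (B : Matrix ι ι (MvPolynomial ι A)) (r : ι → ℕ)
    (hB : ∀ i j, (B i j).IsHomogeneous (r i)) : B.det.IsHomogeneous (∑ i, r i) := by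
  rw [Matrix.det_apply]
  refine IsHomogeneous.sum _ _ _ fun s _ => ?_
  have h : (∏ i, B (s i) i).IsHomogeneous (∑ i, r (s i)) :=
    IsHomogeneous.prod _ _ _ fun i _ => hB _ _
  rw [Equiv.sum_comp s r] at h
  rw [Units.smul_def]
  exact (homogeneousSubmodule ι A _).toAddSubgroup.zsmul_mem h _

lemma isHomogeneous_mulVec {M : Matrix ι ι (MvPolynomial ι A)} {r : ℕ}
    (hM : ∀ i j, (M i j).IsHomogeneous r) (i : ι) : ((M *ᵥ X) i).IsHomogeneous (r + 1) :=
  IsHomogeneous.sum _ _ _ fun j _ => (hM i j).mul (isHomogeneous_X A j)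

/-- The ideal of the mixed sequence. -/
noncomputable def mixI (M : Matrix ι ι (MvPolynomial ι A)) (N : ℕ) (S : Finset ι) :
    Ideal (MvPolynomial ι A) :=
  Ideal.span (Set.range fun i => (mixM M N S *ᵥ X) i)

/-- The generators of the mixed sequence other than the `k`-th. -/
def mixC (M : Matrix ι ι (MvPolynomial ι A)) (N : ℕ) (S : Finset ι) (k : ι) :
    Set (MvPolynomial ι A) :=
  {g | ∃ j, j ∉ S ∧ j ≠ k ∧ g = X j ^ (N + 1)} ∪ (fun i => (M *ᵥ X) i) '' S

lemma mixC_eq (M : Matrix ι ι (MvPolynomial ι A)) (N : ℕ) (S : Finset ι) (k : ι) (hk : k ∉ S) :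
    (fun i => (mixM M N S *ᵥ X) i) '' {i | i ≠ k} = mixC M N S k := by
  ext g
  simp only [mixC, Set.mem_image, Set.mem_ofPred_eq, Set.mem_union, mixM_mulVec, Finset.mem_coe]
  constructor
  · rintro ⟨i, hi, rfl⟩
    by_cases h : i ∈ S
    · exact Or.inr ⟨i, h, by rw [if_pos h]⟩
    · exact Or.inl ⟨i, h, hi, by rw [if_neg h]⟩
  · rintro (⟨j, hj, hjk, rfl⟩ | ⟨j, hj, rfl⟩)
    · exact ⟨j, hjk, by rw [if_neg hj]⟩
    · exact ⟨j, by rintro rfl; exact hk hj, by rw [if_pos hj]⟩

lemma range_eq_insert {α β : Type*} (f : α → β) (k : α) :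
    Set.range f = insert (f k) (f '' {i | i ≠ k}) := by
  ext g
  constructor
  · rintro ⟨i, rfl⟩
    by_cases h : i = k
    · exact Or.inl (by rw [h])
    · exact Or.inr ⟨i, h, rfl⟩
  · rintro (rfl | ⟨i, -, rfl⟩) <;> exact ⟨_, rfl⟩

lemma mixI_eq (M : Matrix ι ι (MvPolynomial ι A)) (N : ℕ) (S : Finset ι) (k : ι) (hk : k ∉ S) :
    mixI M N S = Ideal.span (insert (X k ^ (N + 1)) (mixC M N S k)) := by
  rw [mixI, range_eq_insert _ k, mixC_eq M N S k hk, mixM_mulVec, if_neg hk]

lemma mixI_insert_eq (M : Matrix ι ι (MvPolynomial ι A)) (N : ℕ) (S : Finset ι) (k : ι)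
    (hk : k ∉ S) :
    mixI M N (insert k S) = Ideal.span (insert ((M *ᵥ X) k) (mixC M N S k)) := by
  rw [mixI, range_eq_insert _ k, mixM_mulVec, if_pos (Finset.mem_insert_self _ _),
    ← mixC_eq M N S k hk]
  congr 2
  refine Set.image_congr fun i hi => ?_
  have hi' : i ≠ k := hi
  simp [mixM_mulVec, hi']

lemma mix_exchange (M : Matrix ι ι (MvPolynomial ι A)) (N : ℕ) (S : Finset ι) (k : ι)
    (hk : k ∉ S) :
    (mixM M N S).det * (M *ᵥ X) k - (mixM M N (insert k S)).det * X k ^ (N + 1) ∈
      Ideal.span (mixC M N S k) := by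
  have h := det_exchange (mixM M N S) X (M k) k
  rw [mixC_eq M N S k hk, ← mixM_insert, mixM_mulVec, if_neg hk] at h
  exact h

variable {M : Matrix ι ι (MvPolynomial ι A)}

lemma regX (D : ShiftData X fun i => (M *ᵥ X) i) (N : ℕ) (S : Finset ι) (k : ι) (hk : k ∉ S) :
    RegMod (Ideal.span (mixC M N S k)) (X k) := by
  refine D.regz S _ k hk ?_
  rintro g ⟨j, hj, hjk, rfl⟩
  exact ⟨j, _, hj, hjk, rfl⟩

lemma regF (D : ShiftData X fun i => (M *ᵥ X) i) (N : ℕ) (S : Finset ι) (k : ι) (hk : k ∉ S) :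
    RegMod (Ideal.span (mixC M N S k)) ((M *ᵥ X) k) := by
  refine D.regF_of_regz S _ k hk ?_ (regX D N S k hk)
  rintro g ⟨j, -, -, rfl⟩
  exact ⟨j, _, rfl⟩

/-- Uniqueness: a constant multiple of the determinant lies in the ideal only if it is zero. -/
lemma eq_zero_of_mul_det_mem_mix (D : ShiftData X fun i => (M *ᵥ X) i) (S : Finset ι) (a : A) :
    C a * (mixM M 0 S).det ∈ mixI M 0 S → a = 0 := by
  induction S using Finset.induction_on with
  | empty =>
    intro h
    rw [mixM_empty] at h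
    simp only [pow_zero, diagonal_one, det_one, mul_one] at h
    have h2 : mixI M 0 ∅ ≤ RingHom.ker (constantCoeff : MvPolynomial ι A →+* A) := by
      rw [mixI, Ideal.span_le]
      rintro _ ⟨i, rfl⟩
      simp [mixM_mulVec]
    simpa using h2 h
  | insert k S hk ih =>
    intro h
    apply ih
    rw [mixI_insert_eq M 0 S k hk] at h
    obtain ⟨w, γ, hγ, hw⟩ := Ideal.mem_span_insert.1 h
    have hex := mix_exchange M 0 S k hk
    have h1 : (M *ᵥ X) k * (C a * (mixM M 0 S).det - w * X k ^ (0 + 1)) ∈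
        Ideal.span (mixC M 0 S k) := by
      have : (M *ᵥ X) k * (C a * (mixM M 0 S).det - w * X k ^ (0 + 1)) =
          C a * ((mixM M 0 S).det * (M *ᵥ X) k -
            (mixM M 0 (insert k S)).det * X k ^ (0 + 1)) + X k ^ (0 + 1) * γ := by
        linear_combination (X k ^ (0 + 1)) * hw
      rw [this]
      exact add_mem (Ideal.mul_mem_left _ _ hex) (Ideal.mul_mem_left _ _ hγ)
    rw [mixI_eq M 0 S k hk]
    exact Ideal.mem_span_insert.2 ⟨w, _, regF D 0 S k hk _ h1, by ring⟩

lemma eq_zero_of_mul_det_mem (D : ShiftData X fun i => (M *ᵥ X) i) (a : A)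
    (h : C a * M.det ∈ Ideal.span (Set.range fun i => (M *ᵥ X) i)) : a = 0 := by
  refine eq_zero_of_mul_det_mem_mix D Finset.univ a ?_
  rwa [mixI, mixM_univ]

lemma exists_sub_mem_base (N : ℕ) (u : MvPolynomial ι A)
    (hu : u.IsHomogeneous (∑ _i : ι, N)) :
    ∃ a : A, u - C a * ∏ i, X i ^ N ∈
      Ideal.span (Set.range fun i : ι => (X i ^ (N + 1) : MvPolynomial ι A)) := by
  classical
  let m0 : ι →₀ ℕ := Finsupp.equivFunOnFinite.symm fun _ => N
  have hprod : (∏ i, X i ^ N : MvPolynomial ι A) = monomial m0 1 := by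
    rw [monomial_eq, C_1, one_mul, Finsupp.prod_fintype _ _ (by simp)]
    simp [m0]
  refine ⟨coeff m0 u, ?_⟩
  rw [hprod, C_mul_monomial, mul_one]
  set v := u - monomial m0 (coeff m0 u) with hv
  rw [v.as_sum]
  refine Ideal.sum_mem _ fun m hm => ?_
  have hne : m ≠ m0 := by
    rintro rfl
    simp [hv] at hm
  have hmu : coeff m u ≠ 0 := by
    have := mem_support_iff.1 hm
    rwa [hv, coeff_sub, coeff_monomial, if_neg hne.symm, sub_zero] at this
  have hdeg : ∑ i, m i = ∑ _i : ι, N := by
    by_contra hcon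
    exact hmu (hu.coeff_eq_zero (by rwa [Finsupp.degree_eq_sum]))
  have hex : ∃ i, N + 1 ≤ m i := by
    by_contra hcon
    push Not at hcon
    apply hne
    ext i
    have := (Finset.sum_eq_sum_iff_of_le (s := Finset.univ) (f := fun i => m i) (g := fun _ => N)
      (fun i _ => Nat.le_of_lt_succ (hcon i))).1 hdeg i (Finset.mem_univ i)
    simpa [m0] using this
  obtain ⟨i, hi⟩ := hex
  have : monomial m (coeff m v) =
      monomial (m - Finsupp.single i (N + 1)) (coeff m v) * X i ^ (N + 1) := by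
    rw [X_pow_eq_monomial, monomial_mul, mul_one, tsub_add_cancel_of_le]
    exact Finsupp.single_le_iff.2 hi
  rw [this]
  exact Ideal.mul_mem_left _ _ (Ideal.subset_span ⟨i, rfl⟩)

lemma exists_sub_mem_mix (D : ShiftData X fun i => (M *ᵥ X) i) {r : ℕ}
    (hM : ∀ i j, (M i j).IsHomogeneous r) (N : ℕ) (S : Finset ι) :
    ∀ u : MvPolynomial ι A, u.IsHomogeneous (∑ i, if i ∈ S then r else N) →
      (∀ i, u * (M *ᵥ X) i ∈ mixI M N S) → (∀ i, u * X i ^ (N + 1) ∈ mixI M N S) →
      ∃ a : A, u - C a * (mixM M N S).det ∈ mixI M N S := by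
  induction S using Finset.induction_on with
  | empty =>
    intro u hu _ _
    simp only [Finset.notMem_empty, if_false] at hu
    obtain ⟨a, ha⟩ := exists_sub_mem_base N u hu
    refine ⟨a, ?_⟩
    rw [mixM_empty, det_diagonal, mixI]
    simpa [mixM_mulVec] using ha
  | insert k S hk ih =>
    intro u hu h1 h2
    set x := (M *ᵥ X) k with hx
    set y : MvPolynomial ι A := X k ^ (N + 1) with hy
    set c := Ideal.span (mixC M N S k) with hc
    have hxr : RegMod c x := regF D N S k hk
    have hyr : RegMod c y := (regX D N S k hk).pow _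
    have hIi := mixI_insert_eq M N S k hk
    have hI := mixI_eq M N S k hk
    have hdeg : (∑ i, if i ∈ insert k S then r else N) + (N + 1) =
        (∑ i, if i ∈ S then r else N) + (r + 1) := by
      rw [← Finset.add_sum_erase _ _ (Finset.mem_univ k),
        ← Finset.add_sum_erase _ (fun i => if i ∈ S then r else N) (Finset.mem_univ k),
        if_pos (Finset.mem_insert_self _ _), if_neg hk]
      have : ∑ i ∈ Finset.univ.erase k, (if i ∈ insert k S then r else N) =
          ∑ i ∈ Finset.univ.erase k, (if i ∈ S then r else N) := by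
        refine Finset.sum_congr rfl fun i hi => ?_
        simp [(Finset.mem_erase.1 hi).1]
      omega
    have hxh : x.IsHomogeneous (r + 1) := isHomogeneous_mulVec hM k
    have hch : ∀ g ∈ mixC M N S k, ∃ a, g.IsHomogeneous a := by
      rintro g (⟨j, -, -, rfl⟩ | ⟨j, -, rfl⟩)
      · exact ⟨_, isHomogeneous_X_pow j _⟩
      · exact ⟨_, isHomogeneous_mulVec hM j⟩
    obtain ⟨v0, γ0, hγ0, hv0⟩ := Ideal.mem_span_insert.1 (hIi ▸ h2 k)
    set v := homogeneousComponent (∑ i, if i ∈ S then r else N) v0 with hv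
    have huy : u * y - v * x ∈ c := by
      have hh : (u * y).IsHomogeneous ((∑ i, if i ∈ S then r else N) + (r + 1)) := by
        rw [← hdeg]; exact hu.mul (isHomogeneous_X_pow k _)
      have e1 := congrArg (homogeneousComponent ((∑ i, if i ∈ S then r else N) + (r + 1))) hv0
      rw [homogeneousComponent_eq_self hh, map_add, comp_mul_of_isHomogeneous _ _ hxh] at e1
      rw [e1, add_sub_cancel_left]
      exact comp_mem_span hch hγ0 _
    have key : ∀ b, u * b ∈ mixI M N (insert k S) → v * b ∈ mixI M N S := by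
      intro b hb
      obtain ⟨w, γ, hγ, hw⟩ := Ideal.mem_span_insert.1 (hIi ▸ hb)
      have : x * (v * b - w * y) ∈ c := by
        have e : x * (v * b - w * y) = -(b * (u * y - v * x)) + y * γ := by
          linear_combination y * hw
        rw [e]
        exact add_mem (neg_mem (Ideal.mul_mem_left _ _ huy)) (Ideal.mul_mem_left _ _ hγ)
      rw [hI]
      exact Ideal.mem_span_insert.2 ⟨w, _, hxr _ this, by ring⟩
    obtain ⟨a, ha⟩ := ih v (homogeneousComponent_isHomogeneous _ _) (fun i => key _ (h1 i))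
      (fun i => key _ (h2 i))
    refine ⟨a, ?_⟩
    obtain ⟨w, γ, hγ, hw⟩ := Ideal.mem_span_insert.1 (hI ▸ ha)
    have hex := mix_exchange M N S k hk
    have : y * (u - C a * (mixM M N (insert k S)).det - w * x) ∈ c := by
      have e : y * (u - C a * (mixM M N (insert k S)).det - w * x) =
          (u * y - v * x) + C a * ((mixM M N S).det * x - (mixM M N (insert k S)).det * y)
            + x * γ := by
        linear_combination x * hw
      rw [e]
      exact add_mem (add_mem huy (Ideal.mul_mem_left _ _ hex)) (Ideal.mul_mem_left _ _ hγ)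
    rw [hIi]
    exact Ideal.mem_span_insert.2 ⟨w, _, hyr _ this, by ring⟩

/-- An inertia form of the critical degree is a constant multiple of the determinant modulo
the ideal. -/
lemma exists_sub_mul_det_mem (D : ShiftData X fun i => (M *ᵥ X) i) {r : ℕ}
    (hM : ∀ i j, (M i j).IsHomogeneous r) (N : ℕ) (u : MvPolynomial ι A)
    (hu : u.IsHomogeneous (Fintype.card ι * r))
    (h : ∀ i, u * X i ^ (N + 1) ∈ Ideal.span (Set.range fun i => (M *ᵥ X) i)) :
    ∃ a : A, u - C a * M.det ∈ Ideal.span (Set.range fun i => (M *ᵥ X) i) := by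
  have := exists_sub_mem_mix D hM N Finset.univ u (by simpa using hu)
  rw [mixI, mixM_univ] at this
  exact this (fun i => Ideal.mul_mem_left _ _ (Ideal.subset_span ⟨i, rfl⟩)) h

end Main

end Pool.Agent.P.MP_2a8a61_ag
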