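import Pool.Agent.P.MP_2a8a61_ag.Series

/-!
The discriminant exponent of the associated-form contravariant is `1` for all `n ≥ 2`, `d ≥ 3`.
-/

namespace Pool.Agent.P.MP_2a8a61_ag.ExponentOne

open MvPolynomial

/-- Exponent vectors of the monomials of degree `d` in `n` variables: they index the
coordinates (the coefficients) on the space of forms of degree `d`. -/
abbrev Mono (n d : ℕ) : Type := {m : Fin n →₀ ℕ // m.degree = d}

/-- The value at the form `f` of a polynomial in the coefficients of forms of degree `d`. -/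
noncomputable def valueAt (n d : ℕ) (f : MvPolynomial (Fin n) ℂ) :
    MvPolynomial (Mono n d) ℂ →+* ℂ :=
  eval fun m : Mono n d => coeff m.1 f

/-- `f` is degenerate: all its first derivatives vanish at some nonzero point. -/
def Degenerate {n : ℕ} (f : MvPolynomial (Fin n) ℂ) : Prop :=
  ∃ z : Fin n → ℂ, z ≠ 0 ∧ ∀ i, eval z (pderiv i f) = 0

/-- `Δ` is the discriminant of forms of degree `d` in `n` variables (up to a nonzero scalar):
an irreducible polynomial in the coefficients whose zeros are exactly the degenerate forms. -/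
def IsDiscriminant (n d : ℕ) (Δ : MvPolynomial (Mono n d) ℂ) : Prop :=
  Irreducible Δ ∧
    ∀ f : MvPolynomial (Fin n) ℂ, f.IsHomogeneous d → (valueAt n d f Δ = 0 ↔ Degenerate f)

/-- The Hessian determinant of `f`. -/
noncomputable def hess {n : ℕ} (f : MvPolynomial (Fin n) ℂ) : MvPolynomial (Fin n) ℂ :=
  (Matrix.of fun i j => pderiv i (pderiv j f)).det

/-- `c` is the value at `w` of the associated form of `f`: in the Milnor algebra
`ℂ[[z]] / (f_{z_1}, …, f_{z_n})` one has `(w_1 z_1 + ⋯ + w_n z_n) ^ (n (d - 2)) = c Hess f`. -/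
def IsAssocValue (n d : ℕ) (f : MvPolynomial (Fin n) ℂ) (w : Fin n → ℂ) (c : ℂ) : Prop :=
  (((∑ i, C (w i) * X i) ^ (n * (d - 2)) - C c * hess f : MvPolynomial (Fin n) ℂ) :
      MvPowerSeries (Fin n) ℂ) ∈
    Ideal.span (Set.range fun i =>
      ((pderiv i f : MvPolynomial (Fin n) ℂ) : MvPowerSeries (Fin n) ℂ))

/-- `Δ ^ p Φ` extends to a morphism on the whole space of forms: there is a form `Ψ` of degree
`n (d - 2)` whose coefficients are polynomials in the coefficients of `f` and which agrees with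
`Δ ^ p Φ` at every form `f` of degree `d` with `Δ f ≠ 0`. -/
def Extends (n d : ℕ) (Δ : MvPolynomial (Mono n d) ℂ) (p : ℕ) : Prop :=
  ∃ Ψ : MvPolynomial (Fin n) (MvPolynomial (Mono n d) ℂ), Ψ.IsHomogeneous (n * (d - 2)) ∧
    ∀ f : MvPolynomial (Fin n) ℂ, f.IsHomogeneous d → valueAt n d f Δ ≠ 0 →
      ∀ (w : Fin n → ℂ) (c : ℂ), IsAssocValue n d f w c →
        eval w (map (valueAt n d f) Ψ) = valueAt n d f Δ ^ p * c

open Pool.Agent.P.MP_2a8a61_ag in
theorem result (n d : ℕ) (hn : 2 ≤ n) (hd : 3 ≤ d) :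
    (∃ Δ, IsDiscriminant n d Δ) ∧
    ∀ Δ, IsDiscriminant n d Δ →
      (∀ f : MvPolynomial (Fin n) ℂ, f.IsHomogeneous d → valueAt n d f Δ ≠ 0 →
        ∀ w : Fin n → ℂ, ∃! c : ℂ, IsAssocValue n d f w c) ∧
      IsLeast {p : ℕ | 0 < p ∧ Extends n d Δ p} 1 := by
  have : Nonempty (Fin n) := ⟨⟨0, by omega⟩⟩
  have hd2 : 2 ≤ d := by omega
  refine ⟨exists_discriminant (ι := Fin n) hd2, fun Δ hΔ => ?_⟩
  have hv : ∀ i : Fin n, VanAt d i Δ := fun i f hf z hz hs =>
    (hΔ.2 f hf).2 ⟨z, fun h => hz (by rw [h]; rfl), hs⟩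
  have hiff : ∀ f : MvPolynomial (Fin n) ℂ, f.IsHomogeneous d → ∀ (w : Fin n → ℂ) (c : ℂ),
      IsAssocValue n d f w c ↔
        (∑ i, C (w i) * X i) ^ (Fintype.card (Fin n) * (d - 2)) - C c * (HM f).det ∈ Jac f := by
    intro f hf w c
    rw [← coe_mem_span_iff hf (congr_isHomogeneous hf w c), IsAssocValue, hess, det_hessian_eq,
      Fintype.card_fin]
  obtain ⟨h1, Ψ, hΨ, h2⟩ := main_extension hd2 hv
  refine ⟨fun f hf h0 w => ?_, ⟨one_pos, Ψ, by simpa using hΨ, fun f hf h0 w c hc => ?_⟩,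
    fun p hp => hp.1⟩
  · simpa only [hiff f hf w] using h1 f hf h0 w
  · rw [pow_one]
    exact h2 f hf h0 w c ((hiff f hf w c).1 hc)

end Pool.Agent.P.MP_2a8a61_ag.ExponentOne
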