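import Pool.Agent.P.MP_2a8a61_ag.Universal

/-! Polynomials vanishing on the degenerate forms are inertia forms of the universal gradient. -/

set_option linter.unusedSectionVars false
set_option maxHeartbeats 400000

namespace Pool.Agent.P.MP_2a8a61_ag

open MvPolynomial Matrix

variable {ι : Type} [DecidableEq ι] [Fintype ι]

section Correct

variable {S : Type*} [CommRing S]

/-- The coefficients of the correcting linear form. -/
noncomputable def corrB (d : ℕ) (f : MvPolynomial ι S) (z : ι → S) (s t : S) (i j : ι) : S :=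
  eval z (pderiv j f) -
    if j = i then ((d - 1 : ℕ) : S) * s * (t * ∑ k, z k * eval z (pderiv k f)) else 0

/-- The form `f` corrected so as to be singular at `z`. -/
noncomputable def corr (d : ℕ) (f : MvPolynomial ι S) (z : ι → S) (s t : S) (i : ι) :
    MvPolynomial ι S :=
  f - ∑ j, C (s ^ (d - 1) * corrB d f z s t i j) * (X i ^ (d - 1) * X j)

lemma corr_isHomogeneous {d : ℕ} (hd : 1 ≤ d) {f : MvPolynomial ι S} (hf : f.IsHomogeneous d)
    (z : ι → S) (s t : S) (i : ι) : (corr d f z s t i).IsHomogeneous d := by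
  refine hf.sub (IsHomogeneous.sum _ _ _ fun j _ => IsHomogeneous.C_mul ?_ _)
  have := (isHomogeneous_X_pow (R := S) i (d - 1)).mul (isHomogeneous_X S j)
  rwa [Nat.sub_add_cancel hd] at this

lemma corr_singular {d : ℕ} (hd : 2 ≤ d) (f : MvPolynomial ι S) (z : ι → S) (s t : S) (i : ι)
    (hs : z i * s = 1) (ht : (d : S) * t = 1) (k : ι) :
    eval z (pderiv k (corr d f z s t i)) = 0 := by
  obtain ⟨e, rfl⟩ : ∃ e, d = e + 2 := ⟨d - 2, by omega⟩
  set E := t * ∑ k, z k * eval z (pderiv k f) with hE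
  have hl : ∑ j, corrB (e + 2) f z s t i j * z j = E := by
    simp only [corrB, sub_mul, Finset.sum_sub_distrib, ite_mul, zero_mul, Finset.sum_ite_eq',
      Finset.mem_univ, if_true, ← hE]
    have h1 : ∑ j, eval z (pderiv j f) * z j = ((e + 2 : ℕ) : S) * E := by
      rw [hE, ← mul_assoc, ht, one_mul]
      exact Finset.sum_congr rfl fun j _ => mul_comm _ _
    rw [h1]
    have : e + 2 - 1 = e + 1 := rfl
    rw [this]
    push_cast
    linear_combination (-(e + 1 : S) * E) * hs
  have hp : s ^ (e + 1) * z i ^ (e + 1) = 1 := by rw [← mul_pow, mul_comm, hs, one_pow]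
  have hp' : s ^ e * z i ^ e = 1 := by rw [← mul_pow, mul_comm, hs, one_pow]
  have hterm : ∀ j, eval z (pderiv k (C (s ^ (e + 1) * corrB (e + 2) f z s t i j) *
      (X i ^ (e + 1) * X j))) =
      (if k = i then ((e + 1 : ℕ) : S) * s * (corrB (e + 2) f z s t i j * z j) else 0) +
        if j = k then corrB (e + 2) f z s t i j else 0 := by
    intro j
    rw [pderiv_C_mul, pderiv_mul, pderiv_pow, pderiv_X, pderiv_X]
    simp only [Pi.single_apply, map_mul, map_add, eval_C, map_pow, eval_X, map_natCast,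
      apply_ite (eval z), map_one, map_zero, Nat.add_sub_cancel]
    by_cases h1 : k = i
    · subst h1
      by_cases h2 : j = k
      · subst h2
        simp only [if_true]
        linear_combination (((e + 1 : ℕ) : S) * s * corrB (e + 2) f z s t j j * z j) * hp' +
          corrB (e + 2) f z s t j j * hp
      · simp only [if_true, if_neg h2]
        linear_combination (((e + 1 : ℕ) : S) * s * corrB (e + 2) f z s t k j * z j) * hp'
    · have h1' : ¬ i = k := fun h => h1 h.symm
      by_cases h2 : j = k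
      · subst h2
        simp only [if_true, if_neg h1, if_neg h1']
        linear_combination corrB (e + 2) f z s t i j * hp
      · simp only [if_neg h1, if_neg h1', if_neg h2]
        ring
  have e1 : e + 2 - 1 = e + 1 := rfl
  rw [corr, map_sub, map_sum, map_sub, map_sum, e1]
  simp_rw [hterm]
  rw [Finset.sum_add_distrib, Finset.sum_ite_eq' , if_pos (Finset.mem_univ _)]
  by_cases h1 : k = i
  · simp only [if_pos h1]
    rw [← Finset.mul_sum, hl, corrB, if_pos h1, e1]
    ring
  · simp only [if_neg h1]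
    rw [corrB, if_neg h1]
    simp

lemma coeff_corr_sub_mem (d : ℕ) (f : MvPolynomial ι S) (z : ι → S) (s t : S) (i : ι)
    (J : Ideal S) (hJ : ∀ j, eval z (pderiv j f) ∈ J) (m : ι →₀ ℕ) :
    coeff m (corr d f z s t i) - coeff m f ∈ J := by
  rw [corr, coeff_sub, sub_sub_cancel_left, coeff_sum]
  refine neg_mem (Ideal.sum_mem _ fun j _ => ?_)
  rw [coeff_C_mul]
  refine Ideal.mul_mem_right _ _ (Ideal.mul_mem_left _ _ (sub_mem (hJ j) ?_))
  split_ifs
  · exact Ideal.mul_mem_left _ _ (Ideal.mul_mem_left _ _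
      (Ideal.sum_mem _ fun k _ => Ideal.mul_mem_left _ _ (hJ k)))
  · exact zero_mem _

end Correct

/-- `P` vanishes at every form with a singular point whose `i`-th coordinate is nonzero. -/
def VanAt (d : ℕ) (i : ι) (P : Co ι d) : Prop :=
  ∀ f : MvPolynomial ι ℂ, f.IsHomogeneous d → ∀ z : ι → ℂ, z i ≠ 0 →
    (∀ j, eval z (pderiv j f) = 0) → evAt d f P = 0

lemma eq_zero_of_forall_eval₂ {τ : Type} (r : MvPolynomial ι (MvPolynomial τ ℂ))
    (h : ∀ (a : τ → ℂ) (z : ι → ℂ), eval₂Hom (eval a) z r = 0) : r = 0 := by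
  ext1 m
  refine MvPolynomial.funext fun a => ?_
  have : map (eval a) r = 0 := by
    refine MvPolynomial.funext fun z => ?_
    rw [eval_map, map_zero]
    exact h a z
  rw [← coeff_map, this]
  simp

section Loc

variable (d : ℕ) (i : ι) (L : Type) [CommRing L] [Algebra (MvPolynomial ι (Co ι d)) L]
  [IsLocalization.Away (X i : MvPolynomial ι (Co ι d)) L]

/-- The universal form corrected to be singular at the universal point. -/
noncomputable def corrU : MvPolynomial ι L :=
  corr d (map ((algebraMap (MvPolynomial ι (Co ι d)) L).comp C) (UF ι d))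
    (fun j => algebraMap (MvPolynomial ι (Co ι d)) L (X j))
    (IsLocalization.Away.invSelf (X i : MvPolynomial ι (Co ι d)))
    (algebraMap (MvPolynomial ι (Co ι d)) L (C (C ((d : ℂ)⁻¹)))) i

/-- Substitution of the coefficients of the corrected universal form. -/
noncomputable def sigmaMap : Co ι d →+* L :=
  eval₂Hom ((algebraMap (MvPolynomial ι (Co ι d)) L).comp (C.comp C))
    fun m => coeff m.1 (corrU d i L)

lemma eval_map_algebraMap_C (p : MvPolynomial ι (Co ι d)) :
    eval (fun j => algebraMap (MvPolynomial ι (Co ι d)) L (X j))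
      (map ((algebraMap (MvPolynomial ι (Co ι d)) L).comp C) p) =
      algebraMap (MvPolynomial ι (Co ι d)) L p := by
  have : (eval (fun j => algebraMap (MvPolynomial ι (Co ι d)) L (X j))).comp
      (map ((algebraMap (MvPolynomial ι (Co ι d)) L).comp C)) =
      algebraMap (MvPolynomial ι (Co ι d)) L := by
    refine MvPolynomial.ringHom_ext (fun r => ?_) fun j => ?_ <;> simp
  exact congrArg (fun φ => φ p) this

lemma inertia_of_sigma_eq_zero (P : Co ι d) (h : sigmaMap d i L P = 0) :
    ∃ N, X i ^ N * C P ∈ Jac (UF ι d) := by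
  set J := (Jac (UF ι d)).map (algebraMap (MvPolynomial ι (Co ι d)) L) with hJ
  have h1 : (Ideal.Quotient.mk J).comp (sigmaMap d i L) =
      (Ideal.Quotient.mk J).comp ((algebraMap (MvPolynomial ι (Co ι d)) L).comp C) := by
    refine MvPolynomial.ringHom_ext (fun r => ?_) fun m => ?_
    · simp [sigmaMap]
    · simp only [sigmaMap, RingHom.comp_apply, eval₂Hom_X', Ideal.Quotient.eq]
      have := coeff_corr_sub_mem d (map ((algebraMap (MvPolynomial ι (Co ι d)) L).comp C) (UF ι d))
        (fun j => algebraMap (MvPolynomial ι (Co ι d)) L (X j))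
        (IsLocalization.Away.invSelf (X i : MvPolynomial ι (Co ι d)))
        (algebraMap (MvPolynomial ι (Co ι d)) L (C (C ((d : ℂ)⁻¹)))) i J
        (fun j => by
          rw [pderiv_map, eval_map_algebraMap_C]
          exact Ideal.mem_map_of_mem _ (Ideal.subset_span ⟨j, rfl⟩)) m.1
      rwa [coeff_map, coeff_UF] at this
  have h2 := congrArg (fun φ => φ P) h1
  simp only [RingHom.comp_apply, h, map_zero] at h2
  have h3 := Ideal.Quotient.eq_zero_iff_mem.1 h2.symm
  obtain ⟨_, ⟨N, rfl⟩, hN⟩ := (IsLocalization.algebraMap_mem_map_algebraMap_iff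
    (Submonoid.powers (X i : MvPolynomial ι (Co ι d))) L _ _).1 h3
  exact ⟨N, hN⟩

lemma corrU_singular (hd : 2 ≤ d) (j : ι) :
    eval (fun j => algebraMap (MvPolynomial ι (Co ι d)) L (X j)) (pderiv j (corrU d i L)) = 0 := by
  unfold corrU
  refine corr_singular hd _ _ _ _ i
    (IsLocalization.Away.mul_invSelf (X i : MvPolynomial ι (Co ι d))) ?_ j
  have hd0 : (d : ℂ) ≠ 0 := Nat.cast_ne_zero.2 (by omega)
  have := congrArg (((algebraMap (MvPolynomial ι (Co ι d)) L).comp (C.comp C) : ℂ →+* L))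
    (mul_inv_cancel₀ hd0)
  rwa [map_mul, map_natCast, map_one] at this

lemma ev_sigma_eq_zero (hd : 2 ≤ d) {k : ι} {P : Co ι d} (h : VanAt d k P)
    (a : Mon ι d → ℂ) (z : ι → ℂ) (hk : z k ≠ 0) (ev : L →+* ℂ)
    (hevX : ∀ p : MvPolynomial ι (Co ι d), ev (algebraMap (MvPolynomial ι (Co ι d)) L p) =
      eval₂Hom (eval a : Co ι d →+* ℂ) z p) :
    ev (sigmaMap d i L P) = 0 := by
  have hhom : (map ev (corrU d i L)).IsHomogeneous d :=
    (corr_isHomogeneous (by omega) ((UF_isHomogeneous d).map _) _ _ _ _).map _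
  have hsing : ∀ j, eval z (pderiv j (map ev (corrU d i L))) = 0 := by
    intro j
    have h1 := congrArg ev (corrU_singular d i L hd j)
    rw [map_eval, map_zero, ← pderiv_map] at h1
    have hz : (ev ∘ fun j => algebraMap (MvPolynomial ι (Co ι d)) L (X j)) = z := by
      funext j
      rw [Function.comp_apply, hevX, eval₂Hom_X']
    rwa [hz] at h1
  have h2 : ev.comp (sigmaMap d i L) = evAt d (map ev (corrU d i L)) := by
    refine MvPolynomial.ringHom_ext (fun r => ?_) fun m => ?_
    · rw [RingHom.comp_apply, sigmaMap, eval₂Hom_C, RingHom.comp_apply, hevX, RingHom.comp_apply,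
        eval₂Hom_C, eval_C, evAt, eval_C]
    · rw [RingHom.comp_apply, sigmaMap, eval₂Hom_X', evAt, eval_X, coeff_map]
  rw [← h _ hhom z hk hsing, ← h2, RingHom.comp_apply]

lemma sigma_eq_zero_of_vanAt (hd : 2 ≤ d) {k : ι} {P : Co ι d} (h : VanAt d k P) :
    sigmaMap d i L P = 0 := by
  obtain ⟨n, r, hr⟩ := IsLocalization.Away.surj (X i : MvPolynomial ι (Co ι d)) (sigmaMap d i L P)
  have hr0 : r * X i * X k = 0 := by
    refine eq_zero_of_forall_eval₂ _ fun a z => ?_
    rw [map_mul, map_mul, eval₂Hom_X', eval₂Hom_X']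
    by_cases hi : z i = 0
    · rw [hi, mul_zero, zero_mul]
    by_cases hk : z k = 0
    · rw [hk, mul_zero]
    have hu : IsUnit (eval₂Hom (eval a : Co ι d →+* ℂ) z (X i : MvPolynomial ι (Co ι d))) := by
      rw [eval₂Hom_X']; exact Ne.isUnit hi
    have hevX : ∀ p : MvPolynomial ι (Co ι d),
        (IsLocalization.Away.lift (X i : MvPolynomial ι (Co ι d)) hu : L →+* ℂ)
        (algebraMap (MvPolynomial ι (Co ι d)) L p) = eval₂Hom (eval a : Co ι d →+* ℂ) z p :=
      fun p => IsLocalization.Away.lift_eq _ hu p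
    have h3 := ev_sigma_eq_zero d i L hd h a z hk _ hevX
    have h4 := congrArg (IsLocalization.Away.lift (X i : MvPolynomial ι (Co ι d)) hu : L →+* ℂ) hr
    rw [map_mul, h3, zero_mul, hevX] at h4
    rw [← h4, zero_mul, zero_mul]
  have hr1 : r = 0 :=
    (mul_eq_zero.1 ((mul_eq_zero.1 hr0).resolve_right (X_ne_zero k))).resolve_right (X_ne_zero i)
  rw [hr1, map_zero] at hr
  exact (IsUnit.mul_left_eq_zero
    (IsLocalization.Away.algebraMap_pow_isUnit (X i : MvPolynomial ι (Co ι d)) n)).1 hr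

end Loc

/-- The localization of the universal polynomial ring at `X i`. -/
abbrev Loc (d : ℕ) (i : ι) : Type := Localization.Away (X i : MvPolynomial ι (Co ι d))

lemma vanAt_of_inertia {d : ℕ} {i : ι} {P : Co ι d} {N : ℕ}
    (h : X i ^ N * C P ∈ Jac (UF ι d)) : VanAt d i P := by
  intro f hf z hz hs
  have h1 := map_mem_Jac (evAt d f) _ h
  rw [map_evAt_UF hf] at h1
  have h2 : Jac f ≤ RingHom.ker (eval z) := by
    rw [Jac, Ideal.span_le]
    rintro _ ⟨j, rfl⟩
    exact hs j
  have h3 := h2 h1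
  simp only [RingHom.mem_ker, map_mul, map_pow, map_X, map_C, eval_X, eval_C] at h3
  exact (mul_eq_zero.1 h3).resolve_left (pow_ne_zero _ hz)

lemma inertia_of_vanAt {d : ℕ} (hd : 2 ≤ d) {k : ι} {P : Co ι d} (h : VanAt d k P) (i : ι) :
    ∃ N, X i ^ N * C P ∈ Jac (UF ι d) :=
  inertia_of_sigma_eq_zero d i (Loc d i) P (sigma_eq_zero_of_vanAt d i (Loc d i) hd h)

lemma vanAt_of_vanAt {d : ℕ} (hd : 2 ≤ d) {k : ι} {P : Co ι d} (h : VanAt d k P) (i : ι) :
    VanAt d i P := by
  obtain ⟨N, hN⟩ := inertia_of_vanAt hd h i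
  exact vanAt_of_inertia hN

lemma ker_sigma_isPrime (d : ℕ) (i : ι) : (RingHom.ker (sigmaMap d i (Loc d i))).IsPrime := by
  have : IsDomain (Loc d i) := Localization.Away.isDomain (X_ne_zero i)
  exact RingHom.ker_isPrime _

lemma mem_ker_sigma_iff {d : ℕ} (hd : 2 ≤ d) (i : ι) (P : Co ι d) :
    P ∈ RingHom.ker (sigmaMap d i (Loc d i)) ↔ VanAt d i P :=
  ⟨fun h => by
    obtain ⟨N, hN⟩ := inertia_of_sigma_eq_zero d i (Loc d i) P h
    exact vanAt_of_inertia hN, fun h => sigma_eq_zero_of_vanAt d i (Loc d i) hd h⟩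

end Pool.Agent.P.MP_2a8a61_ag
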