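import Pool.Agent.P.MP_2a8a61_ag.Inertia

/-! The associated form times any polynomial vanishing on the degenerate forms is polynomial,
and the discriminant exists. -/

set_option linter.unusedSectionVars false
set_option maxHeartbeats 400000

namespace Pool.Agent.P.MP_2a8a61_ag

open MvPolynomial Matrix

variable {ι : Type} [DecidableEq ι] [Fintype ι]

lemma comp_mem_Jac {d : ℕ} {u : MvPolynomial ι (Co ι d)} (hu : u ∈ Jac (UF ι d)) (b : ℕ) :
    homogeneousComponent b u ∈ Jac (UF ι d) := by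
  refine comp_mem_span ?_ hu b
  rintro _ ⟨i, rfl⟩
  exact ⟨_, (UF_isHomogeneous d).pderiv⟩

lemma map_evAt_map_C (d : ℕ) (f b : MvPolynomial ι ℂ) :
    map (evAt d f) (map (C : ℂ →+* Co ι d) b) = b := by
  rw [MvPolynomial.map_map]
  have : (evAt d f).comp (C : ℂ →+* Co ι d) = RingHom.id ℂ := by
    ext r; simp [evAt]
  rw [this, MvPolynomial.map_id]

/-- Lifting a congruence at `f` to the universal form. -/
lemma exists_lift {d D : ℕ} {f : MvPolynomial ι ℂ} (hf : f.IsHomogeneous d)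
    {g : MvPolynomial ι (Co ι d)} (hg : g.IsHomogeneous D) (h : map (evAt d f) g ∈ Jac f) :
    ∃ u : MvPolynomial ι (Co ι d), u.IsHomogeneous D ∧ g - u ∈ Jac (UF ι d) ∧
      ∀ m, evAt d f (coeff m u) = 0 := by
  obtain ⟨b, hb⟩ := Ideal.mem_span_range_iff_exists_fun.1 h
  set γ : MvPolynomial ι (Co ι d) := ∑ j, map C (b j) * pderiv j (UF ι d) with hγ
  have hγJ : γ ∈ Jac (UF ι d) :=
    Ideal.sum_mem _ fun j _ => Ideal.mul_mem_left _ _ (Ideal.subset_span ⟨j, rfl⟩)
  have h0 : map (evAt d f) (g - γ) = 0 := by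
    rw [map_sub, ← hb, hγ, map_sum, sub_eq_zero]
    refine Finset.sum_congr rfl fun j _ => ?_
    rw [map_mul, map_evAt_map_C, ← pderiv_map, map_evAt_UF hf]
  refine ⟨homogeneousComponent D (g - γ), homogeneousComponent_isHomogeneous _ _, ?_, fun m => ?_⟩
  · rw [map_sub, homogeneousComponent_eq_self hg, sub_sub_cancel]
    exact comp_mem_Jac hγJ D
  · rw [coeff_homogeneousComponent]
    split_ifs
    · rw [← coeff_map, h0, coeff_zero]
    · exact map_zero _

/-- `lam` lists the coefficients of the Hessian in `P` times the monomials of critical degree. -/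
def IsLam (d : ℕ) (P : Co ι d) (lam : (ι →₀ ℕ) → Co ι d) : Prop :=
  ∀ m : ι →₀ ℕ, m.degree = Fintype.card ι * (d - 2) →
    C P * monomial m 1 - C (lam m) * (HM (UF ι d)).det ∈ Jac (UF ι d)

lemma exists_isLam {d : ℕ} (hd : 2 ≤ d) {P : Co ι d} (hP : ∀ i, VanAt d i P) :
    ∃ lam, IsLam d P lam := by
  have : ∀ m : ι →₀ ℕ, ∃ a : Co ι d, m.degree = Fintype.card ι * (d - 2) →
      C P * monomial m 1 - C a * (HM (UF ι d)).det ∈ Jac (UF ι d) := by
    intro m
    by_cases hm : m.degree = Fintype.card ι * (d - 2)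
    · obtain ⟨a, ha⟩ := exists_sub_mul_hess_mem hd (C P * monomial m 1)
        ((isHomogeneous_monomial _ hm).C_mul _) fun i => by
          obtain ⟨N, hN⟩ := inertia_of_vanAt hd (hP i) i
          exact ⟨N, by rw [← mul_assoc]; exact Ideal.mul_mem_right _ _ hN⟩
      exact ⟨a, fun _ => ha⟩
    · exact ⟨0, fun h => absurd h hm⟩
  choose lam hlam using this
  exact ⟨lam, hlam⟩

lemma IsLam.sum_mem {d : ℕ} {P : Co ι d} {lam : (ι →₀ ℕ) → Co ι d} (h : IsLam d P lam)
    {u : MvPolynomial ι (Co ι d)} (hu : u.IsHomogeneous (Fintype.card ι * (d - 2))) :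
    C P * u - C (∑ m ∈ u.support, coeff m u * lam m) * (HM (UF ι d)).det ∈ Jac (UF ι d) := by
  have e : C P * u - C (∑ m ∈ u.support, coeff m u * lam m) * (HM (UF ι d)).det =
      ∑ m ∈ u.support, C (coeff m u) * (C P * monomial m 1 - C (lam m) * (HM (UF ι d)).det) := by
    conv_lhs => rw [u.as_sum]
    rw [support_sum_monomial_coeff, map_sum, Finset.sum_mul]
    conv_lhs => rw [u.as_sum]
    rw [support_sum_monomial_coeff]
    nth_rewrite 1 [u.as_sum]
    rw [Finset.mul_sum, ← Finset.sum_sub_distrib]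
    refine Finset.sum_congr rfl fun m _ => ?_
    rw [mul_sub, map_mul, mul_left_comm, C_mul_monomial, C_mul_monomial, C_mul_monomial]
    simp only [mul_one, mul_assoc]
  rw [e]
  refine Ideal.sum_mem _ fun m hm => Ideal.mul_mem_left _ _ (h m ?_)
  by_contra hcon
  exact mem_support_iff.1 hm (hu.coeff_eq_zero hcon)

lemma hess_isHomogeneous (d : ℕ) :
    (HM (UF ι d)).det.IsHomogeneous (Fintype.card ι * (d - 2)) := by
  have := isHomogeneous_det (HM (UF ι d)) (fun _ => d - 2)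
    (HM_isHomogeneous (UF_isHomogeneous d))
  simpa using this

lemma IsLam.eq_sum {d : ℕ} (hd : 2 ≤ d) {P : Co ι d} {lam : (ι →₀ ℕ) → Co ι d}
    (h : IsLam d P lam) {u : MvPolynomial ι (Co ι d)}
    (hu : u.IsHomogeneous (Fintype.card ι * (d - 2)))
    (hH : (HM (UF ι d)).det - u ∈ Jac (UF ι d)) :
    P = ∑ m ∈ u.support, coeff m u * lam m := by
  rw [← sub_eq_zero]
  apply eq_zero_of_mul_hess_mem hd
  have := add_mem (h.sum_mem hu) (Ideal.mul_mem_left _ (C P) hH)
  convert this using 1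
  rw [map_sub]; ring

lemma hess_notMem_Jac {d : ℕ} (hd : 2 ≤ d) {P : Co ι d} (hP : ∀ i, VanAt d i P)
    {f : MvPolynomial ι ℂ} (hf : f.IsHomogeneous d) (h0 : evAt d f P ≠ 0) :
    (HM f).det ∉ Jac f := by
  intro h
  obtain ⟨lam, hlam⟩ := exists_isLam hd hP
  obtain ⟨u, hu, hJ, hc⟩ := exists_lift hf (hess_isHomogeneous d)
    (by rwa [map_det_HM, map_evAt_UF hf])
  apply h0
  rw [hlam.eq_sum hd hu hJ, map_sum]
  exact Finset.sum_eq_zero fun m _ => by rw [map_mul, hc, zero_mul]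

lemma prod_X_pow_eq {S : Type*} [CommRing S] (k : ι → ℕ) :
    (∏ i, X i ^ k i : MvPolynomial ι S) = monomial (Finsupp.equivFunOnFinite.symm k) 1 := by
  rw [monomial_eq, C_1, one_mul, Finsupp.prod_fintype _ _ (by simp)]
  simp

/-- The polynomial extension of `P` times the associated form. -/
theorem exists_extension {d : ℕ} (hd : 2 ≤ d) {P : Co ι d} (hP : ∀ i, VanAt d i P) :
    ∃ Ψ : MvPolynomial ι (Co ι d), Ψ.IsHomogeneous (Fintype.card ι * (d - 2)) ∧
      ∀ f : MvPolynomial ι ℂ, f.IsHomogeneous d → ∀ w : ι → ℂ,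
        C (evAt d f P) * (∑ i, C (w i) * X i) ^ (Fintype.card ι * (d - 2)) -
          C (eval w (map (evAt d f) Ψ)) * (HM f).det ∈ Jac f := by
  obtain ⟨lam, hlam⟩ := exists_isLam hd hP
  set ρ := Fintype.card ι * (d - 2) with hρ
  refine ⟨∑ k ∈ Finset.piAntidiag Finset.univ ρ,
    C ((Nat.multinomial Finset.univ k : Co ι d) * lam (Finsupp.equivFunOnFinite.symm k)) *
      ∏ i, X i ^ k i, ?_, fun f hf w => ?_⟩
  · refine IsHomogeneous.sum _ _ _ fun k hk => IsHomogeneous.C_mul ?_ _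
    rw [← (Finset.mem_piAntidiag.1 hk).1]
    exact IsHomogeneous.prod _ _ _ fun i _ => isHomogeneous_X_pow i _
  · rw [Finset.sum_pow_eq_sum_piAntidiag, Finset.mul_sum, map_sum, map_sum, map_sum,
      Finset.sum_mul, ← Finset.sum_sub_distrib]
    refine Ideal.sum_mem _ fun k hk => ?_
    have hdeg : (Finsupp.equivFunOnFinite.symm k).degree = ρ := by
      rw [Finsupp.degree_eq_sum, ← (Finset.mem_piAntidiag.1 hk).1]
      simp
    have h1 := map_mem_Jac (evAt d f) _ (hlam _ hdeg)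
    rw [map_evAt_UF hf, map_sub, map_mul, map_mul, map_C, map_C, map_det_HM, map_evAt_UF hf,
      ← prod_X_pow_eq] at h1
    have h2 := Ideal.mul_mem_left _
      (C ((Nat.multinomial Finset.univ k : ℂ) * ∏ i, w i ^ k i)) h1
    convert h2 using 1
    simp only [map_mul, map_prod, map_pow, map_X, map_C, map_natCast, eval_C, eval_X, mul_pow,
      Finset.prod_mul_distrib]
    ring

/-- The associated form is well defined where `P` does not vanish, and `P` times it is
polynomial. -/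
theorem main_extension {d : ℕ} (hd : 2 ≤ d) {P : Co ι d} (hP : ∀ i, VanAt d i P) :
    (∀ f : MvPolynomial ι ℂ, f.IsHomogeneous d → evAt d f P ≠ 0 → ∀ w : ι → ℂ, ∃! c : ℂ,
      (∑ i, C (w i) * X i) ^ (Fintype.card ι * (d - 2)) - C c * (HM f).det ∈ Jac f) ∧
    ∃ Ψ : MvPolynomial ι (Co ι d), Ψ.IsHomogeneous (Fintype.card ι * (d - 2)) ∧
      ∀ f : MvPolynomial ι ℂ, f.IsHomogeneous d → evAt d f P ≠ 0 → ∀ (w : ι → ℂ) (c : ℂ),
        (∑ i, C (w i) * X i) ^ (Fintype.card ι * (d - 2)) - C c * (HM f).det ∈ Jac f →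
          eval w (map (evAt d f) Ψ) = evAt d f P * c := by
  obtain ⟨Ψ, hΨ, h⟩ := exists_extension hd hP
  have key : ∀ f : MvPolynomial ι ℂ, f.IsHomogeneous d → evAt d f P ≠ 0 → ∀ (w : ι → ℂ) (c : ℂ),
      (∑ i, C (w i) * X i) ^ (Fintype.card ι * (d - 2)) - C c * (HM f).det ∈ Jac f →
        eval w (map (evAt d f) Ψ) = evAt d f P * c := by
    intro f hf h0 w c hc
    by_contra hne
    apply hess_notMem_Jac hd hP hf h0
    have h1 := sub_mem (h f hf w) (Ideal.mul_mem_left _ (C (evAt d f P)) hc)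
    have hu : IsUnit (C (evAt d f P * c - eval w (map (evAt d f) Ψ)) : MvPolynomial ι ℂ) :=
      (Ne.isUnit (sub_ne_zero.2 (Ne.symm hne))).map C
    refine (Ideal.unit_mul_mem_iff_mem _ hu).1 ?_
    convert h1 using 1
    rw [map_sub, map_mul]; ring
  refine ⟨fun f hf h0 w => ⟨eval w (map (evAt d f) Ψ) / evAt d f P, ?_, fun c hc => ?_⟩,
    Ψ, hΨ, key⟩
  · have hu : IsUnit (C (evAt d f P) : MvPolynomial ι ℂ) := (Ne.isUnit h0).map C
    refine (Ideal.unit_mul_mem_iff_mem _ hu).1 ?_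
    convert h f hf w using 1
    rw [mul_sub, ← mul_assoc, ← map_mul, mul_div_cancel₀ _ h0]
  · rw [key f hf h0 w c hc, mul_div_cancel_left₀ _ h0]

end Pool.Agent.P.MP_2a8a61_ag
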