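import Mathlib

/-! Non-zero-divisors modulo an ideal, and a criterion for mixed regular sequences. -/

set_option linter.unusedSectionVars false

namespace Pool.Agent.P.MP_2a8a61_ag

open Polynomial

variable {R : Type*} [CommRing R]

/-- `y` is a non-zero-divisor modulo `J`. -/
def RegMod (J : Ideal R) (y : R) : Prop := ∀ h, y * h ∈ J → h ∈ J

lemma RegMod.mul {J : Ideal R} {x y : R} (hx : RegMod J x) (hy : RegMod J y) :
    RegMod J (x * y) := by
  intro h hh
  rw [mul_assoc] at hh
  exact hy _ (hx _ hh)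

lemma regMod_of_isUnit (J : Ideal R) {u : R} (hu : IsUnit u) : RegMod J u := by
  intro h hh
  exact (Ideal.unit_mul_mem_iff_mem J hu).1 hh

lemma RegMod.pow {J : Ideal R} {x : R} (hx : RegMod J x) (e : ℕ) : RegMod J (x ^ e) := by
  induction e with
  | zero => simpa using regMod_of_isUnit J isUnit_one
  | succ e ih => rw [pow_succ]; exact ih.mul hx

lemma RegMod.swap {G : Set R} {y F : R} (hy : RegMod (Ideal.span G) y)
    (hF : RegMod (Ideal.span (insert y G)) F) : RegMod (Ideal.span (insert F G)) y := by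
  intro h hh
  obtain ⟨q, j, hj, hq⟩ := Ideal.mem_span_insert.1 hh
  have h1 : F * q ∈ Ideal.span (insert y G) :=
    Ideal.mem_span_insert.2 ⟨h, -j, neg_mem hj, by linear_combination -hq⟩
  obtain ⟨q', j', hj', hq'⟩ := Ideal.mem_span_insert.1 (hF _ h1)
  have h2 : y * (h - F * q') ∈ Ideal.span G := by
    have : y * (h - F * q') = F * j' + j := by rw [hq'] at hq; linear_combination hq
    rw [this]
    exact add_mem (Ideal.mul_mem_left _ _ hj') hj
  exact Ideal.mem_span_insert.2 ⟨q', h - F * q', hy _ h2, by ring⟩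

lemma regMod_of_shift (θ : R →+* R[X]) (hθ : ∀ q, (θ q).coeff 0 = q) (G : Set R)
    (hG : ∀ g ∈ G, θ g = C g) {F α : R} (hF : θ F = C F + C α * X)
    (hα : RegMod (Ideal.span G) α) : RegMod (Ideal.span G) F := by
  intro h hh
  have hmap : θ (F * h) ∈ (Ideal.span G).map (C : R →+* R[X]) := by
    have : (Ideal.span G).map θ ≤ (Ideal.span G).map (C : R →+* R[X]) := by
      rw [Ideal.map_span, Ideal.span_le]
      rintro _ ⟨g, hg, rfl⟩
      rw [hG g hg]
      exact Ideal.mem_map_of_mem _ (Ideal.subset_span hg)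
    exact this (Ideal.mem_map_of_mem _ hh)
  rw [map_mul, hF, Ideal.mem_map_C_iff] at hmap
  set p := θ h with hp
  have step : ∀ k, p.coeff (k + 1) ∈ Ideal.span G → p.coeff k ∈ Ideal.span G := by
    intro k hk
    have h1 := hmap (k + 1)
    rw [add_mul, coeff_add, coeff_C_mul, mul_assoc, coeff_C_mul, coeff_X_mul] at h1
    apply hα
    have := sub_mem h1 (Ideal.mul_mem_left _ F hk)
    simpa using this
  have all : ∀ j k, p.natDegree + 1 ≤ k + j → p.coeff k ∈ Ideal.span G := by
    intro j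
    induction j with
    | zero =>
      intro k hk
      rw [coeff_eq_zero_of_natDegree_lt (by omega)]
      exact zero_mem _
    | succ j ih =>
      intro k hk
      exact step k (ih (k + 1) (by omega))
  have := all (p.natDegree + 1) 0 (by omega)
  rwa [hp, hθ] at this

/-- The data making every mixed sequence of `F`'s and powers of `z`'s regular. -/
structure ShiftData {ι : Type*} (z F : ι → R) where
  α : ι → R
  η : ι → (R →+* R[X])
  θ : ι → (R →+* R[X])
  η0 : ∀ k q, (η k q).coeff 0 = q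
  θ0 : ∀ k q, (θ k q).coeff 0 = q
  ηne : ∀ k j, j ≠ k → η k (z j) = C (z j)
  ηeq : ∀ k, η k (z k) = C (z k) + C 1 * X
  θz : ∀ i j, θ i (z j) = C (z j)
  θne : ∀ i j, j ≠ i → θ i (F j) = C (F j)
  θeq : ∀ i, θ i (F i) = C (F i) + C (α i) * X
  hα : ∀ (J : Ideal R) i, RegMod J (z i) → RegMod J (α i)

variable {ι : Type*} [DecidableEq ι] {z F : ι → R}

lemma ShiftData.regF_of_regz (D : ShiftData z F) (S : Finset ι) (G : Set R) (k : ι)
    (hk : k ∉ S) (hG : ∀ g ∈ G, ∃ j e, g = z j ^ e)
    (h : RegMod (Ideal.span (G ∪ F '' S)) (z k)) :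
    RegMod (Ideal.span (G ∪ F '' S)) (F k) := by
  refine regMod_of_shift (D.θ k) (D.θ0 k) _ ?_ (D.θeq k) (D.hα _ _ h)
  rintro g (hg | ⟨j, hj, rfl⟩)
  · obtain ⟨j, e, rfl⟩ := hG g hg
    rw [map_pow, D.θz, map_pow]
  · exact D.θne k j (by rintro rfl; exact hk hj)

lemma ShiftData.regz (D : ShiftData z F) (S : Finset ι) : ∀ (G : Set R) (k : ι), k ∉ S →
    (∀ g ∈ G, ∃ j e, j ∉ S ∧ j ≠ k ∧ g = z j ^ e) →
    RegMod (Ideal.span (G ∪ F '' S)) (z k) := by
  induction S using Finset.induction_on with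
  | empty =>
    intro G k _ hG
    simp only [Finset.coe_empty, Set.image_empty, Set.union_empty]
    refine regMod_of_shift (D.η k) (D.η0 k) _ ?_ (D.ηeq k) (regMod_of_isUnit _ isUnit_one)
    intro g hg
    obtain ⟨j, e, -, hj, rfl⟩ := hG g hg
    rw [map_pow, D.ηne k j hj, map_pow]
  | insert i S hi ih =>
    intro G k hk hG
    have hki : k ≠ i := by rintro rfl; exact hk (Finset.mem_insert_self _ _)
    have hkS : k ∉ S := fun h => hk (Finset.mem_insert_of_mem h)
    have h1 : RegMod (Ideal.span (G ∪ F '' S)) (z k) := by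
      refine ih G k hkS fun g hg => ?_
      obtain ⟨j, e, hj, hjk, rfl⟩ := hG g hg
      exact ⟨j, e, fun h => hj (Finset.mem_insert_of_mem h), hjk, rfl⟩
    have h2 : RegMod (Ideal.span (insert (z k) G ∪ F '' S)) (z i) := by
      refine ih _ i hi ?_
      rintro g (rfl | hg)
      · exact ⟨k, 1, hkS, hki, (pow_one _).symm⟩
      · obtain ⟨j, e, hj, hjk, rfl⟩ := hG g hg
        exact ⟨j, e, fun h => hj (Finset.mem_insert_of_mem h),
          by rintro rfl; exact hj (Finset.mem_insert_self _ _), rfl⟩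
    have h3 : RegMod (Ideal.span (insert (z k) G ∪ F '' S)) (F i) := by
      refine D.regF_of_regz S _ i hi ?_ h2
      rintro g (rfl | hg)
      · exact ⟨k, 1, (pow_one _).symm⟩
      · obtain ⟨j, e, -, -, rfl⟩ := hG g hg
        exact ⟨j, e, rfl⟩
    rw [Set.insert_union] at h3
    have h4 := h1.swap h3
    rwa [Finset.coe_insert, Set.image_insert_eq, Set.union_insert]

end Pool.Agent.P.MP_2a8a61_ag
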