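import Pool.Agent.P.MP_2a8a61_ag.Disc

/-! Congruences between forms modulo the gradient ideal are the same in the power series ring
and in the polynomial ring. -/

set_option linter.unusedSectionVars false
set_option maxHeartbeats 400000

namespace Pool.Agent.P.MP_2a8a61_ag

open MvPolynomial Matrix

variable {ι : Type} [DecidableEq ι] [Fintype ι]

lemma coe_mem_span_iff {d D : ℕ} {f g : MvPolynomial ι ℂ} (hf : f.IsHomogeneous d)
    (hg : g.IsHomogeneous D) :
    (g : MvPowerSeries ι ℂ) ∈
      Ideal.span (Set.range fun i => ((pderiv i f : MvPolynomial ι ℂ) : MvPowerSeries ι ℂ)) ↔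
      g ∈ Jac f := by
  constructor
  · intro h
    obtain ⟨b, hb⟩ := Ideal.mem_span_range_iff_exists_fun.1 h
    set n := D + d + 1 with hn
    have h1 : ∑ j, MvPowerSeries.truncTotal n (b j) * pderiv j f ∈ Jac f :=
      Ideal.sum_mem _ fun j _ => Ideal.mul_mem_left _ _ (Ideal.subset_span ⟨j, rfl⟩)
    have h2 := comp_mem_span (G := Set.range fun i => pderiv i f)
      (by rintro _ ⟨i, rfl⟩; exact ⟨_, hf.pderiv⟩) h1 D
    have h3 : homogeneousComponent D (∑ j, MvPowerSeries.truncTotal n (b j) * pderiv j f) = g := by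
      ext m
      rw [coeff_homogeneousComponent]
      split_ifs with hm
      · rw [coeff_sum, ← MvPolynomial.coeff_coe g, ← hb, map_sum]
        refine Finset.sum_congr rfl fun j _ => ?_
        have ht : MvPowerSeries.truncTotal n ((pderiv j f : MvPolynomial ι ℂ) :
            MvPowerSeries ι ℂ) = pderiv j f := by
          rw [MvPowerSeries.truncTotal_coe_eq_self_iff _ (by omega)]
          have := (hf.pderiv (i := j)).totalDegree_le
          omega
        rw [← MvPowerSeries.coeff_truncTotal_mul_truncTotal_eq_coeff_mul (n := n) _ _ (by omega),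
          ht]
      · exact (hg.coeff_eq_zero hm).symm
    rwa [h3] at h2
  · intro h
    have : (Jac f).map (coeToMvPowerSeries.ringHom : MvPolynomial ι ℂ →+* MvPowerSeries ι ℂ) ≤
        Ideal.span (Set.range fun i =>
          ((pderiv i f : MvPolynomial ι ℂ) : MvPowerSeries ι ℂ)) := by
      rw [Jac, Ideal.map_span, Ideal.span_le]
      rintro _ ⟨_, ⟨i, rfl⟩, rfl⟩
      exact Ideal.subset_span ⟨i, rfl⟩
    exact this (Ideal.mem_map_of_mem _ h)

lemma congr_isHomogeneous {d : ℕ} {f : MvPolynomial ι ℂ} (hf : f.IsHomogeneous d) (w : ι → ℂ)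
    (c : ℂ) : ((∑ i, C (w i) * X i) ^ (Fintype.card ι * (d - 2)) -
      C c * (HM f).det).IsHomogeneous (Fintype.card ι * (d - 2)) := by
  refine IsHomogeneous.sub ?_ (IsHomogeneous.C_mul ?_ _)
  · have := (IsHomogeneous.sum Finset.univ (fun i => (C (w i) * X i : MvPolynomial ι ℂ)) 1
      fun i _ => isHomogeneous_C_mul_X _ _).pow (Fintype.card ι * (d - 2))
    rwa [one_mul] at this
  · have := isHomogeneous_det (HM f) (fun _ => d - 2) (HM_isHomogeneous hf)
    simpa using this

lemma det_hessian_eq (f : MvPolynomial ι ℂ) :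
    (Matrix.of fun i j => pderiv i (pderiv j f)).det = (HM f).det := by
  rw [← Matrix.det_transpose]
  rfl

end Pool.Agent.P.MP_2a8a61_ag
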