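import Pool.Agent.P.MP_2a8a61_ag.Exchange

/-! The universal form of degree `d`, its gradient and its Hessian matrix. -/

set_option linter.unusedSectionVars false

namespace Pool.Agent.P.MP_2a8a61_ag

open MvPolynomial Matrix

variable {ι : Type} [DecidableEq ι] [Fintype ι]

/-- Exponent vectors of degree `d`. -/
abbrev Mon (ι : Type) (d : ℕ) : Type := {m : ι →₀ ℕ // m.degree = d}

noncomputable instance (d : ℕ) : Fintype (Mon ι d) :=
  (Finsupp.finite_of_degree_eq (σ := ι) d).fintype

/-- The coordinate ring of the space of forms of degree `d`. -/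
abbrev Co (ι : Type) (d : ℕ) : Type := MvPolynomial (Mon ι d) ℂ

/-- The universal form. -/
noncomputable def UF (ι : Type) [DecidableEq ι] [Fintype ι] (d : ℕ) : MvPolynomial ι (Co ι d) :=
  ∑ m : Mon ι d, monomial m.1 (X m)

lemma UF_isHomogeneous (d : ℕ) : (UF ι d).IsHomogeneous d :=
  IsHomogeneous.sum _ _ _ fun m _ => isHomogeneous_monomial _ m.2

lemma coeff_UF (d : ℕ) (m : Mon ι d) : coeff m.1 (UF ι d) = X m := by
  rw [UF, coeff_sum, Finset.sum_eq_single m]
  · simp
  · intro b _ hb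
    rw [coeff_monomial, if_neg fun h => hb (Subtype.ext h)]
  · simp

lemma map_UF {S : Type*} [CommRing S] (d : ℕ) (g : Co ι d →+* S) (f : MvPolynomial ι S)
    (hf : f.IsHomogeneous d) (hg : ∀ m : Mon ι d, g (X m) = coeff m.1 f) :
    map g (UF ι d) = f := by
  ext m
  rw [coeff_map]
  by_cases h : m.degree = d
  · rw [← hg ⟨m, h⟩, ← coeff_UF d ⟨m, h⟩]
  · rw [hf.coeff_eq_zero h, (UF_isHomogeneous d).coeff_eq_zero h, map_zero]

/-- The value at the form `f` of a polynomial function on the space of forms. -/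
noncomputable def evAt (d : ℕ) (f : MvPolynomial ι ℂ) : Co ι d →+* ℂ :=
  eval fun m : Mon ι d => coeff m.1 f

lemma map_evAt_UF {d : ℕ} {f : MvPolynomial ι ℂ} (hf : f.IsHomogeneous d) :
    map (evAt d f) (UF ι d) = f :=
  map_UF d _ f hf fun m => by simp [evAt]

/-- The Hessian matrix. -/
noncomputable def HM {S : Type*} [CommRing S] (f : MvPolynomial ι S) :
    Matrix ι ι (MvPolynomial ι S) :=
  Matrix.of fun i j => pderiv j (pderiv i f)

lemma HM_mulVec {S : Type*} [CommRing S] {f : MvPolynomial ι S} {d : ℕ}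
    (hf : f.IsHomogeneous d) (i : ι) :
    (HM f *ᵥ X) i = ((d - 1 : ℕ) : MvPolynomial ι S) * pderiv i f := by
  rw [← nsmul_eq_mul, ← (hf.pderiv (i := i)).sum_X_mul_pderiv]
  simp [HM, mulVec, dotProduct, mul_comm]

lemma HM_isHomogeneous {S : Type*} [CommRing S] {f : MvPolynomial ι S} {d : ℕ}
    (hf : f.IsHomogeneous d) (i j : ι) : (HM f i j).IsHomogeneous (d - 2) := by
  have := (hf.pderiv (i := i)).pderiv (i := j)
  rwa [Nat.sub_sub] at this

lemma map_det_HM {S T : Type*} [CommRing S] [CommRing T] (g : S →+* T) (f : MvPolynomial ι S) :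
    map g (HM f).det = (HM (map g f)).det := by
  rw [RingHom.map_det]
  congr 1
  ext1 i j
  simp [HM, pderiv_map]

/-- The gradient ideal. -/
noncomputable def Jac {S : Type*} [CommRing S] (f : MvPolynomial ι S) :
    Ideal (MvPolynomial ι S) :=
  Ideal.span (Set.range fun i => pderiv i f)

lemma map_mem_Jac {S T : Type*} [CommRing S] [CommRing T] (g : S →+* T) (f : MvPolynomial ι S)
    {u : MvPolynomial ι S} (hu : u ∈ Jac f) : map g u ∈ Jac (map g f) := by
  have : (Jac f).map (map g) ≤ Jac (map g f) := by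
    rw [Jac, Ideal.map_span, Ideal.span_le]
    rintro _ ⟨_, ⟨i, rfl⟩, rfl⟩
    exact Ideal.subset_span ⟨i, pderiv_map⟩
  exact this (Ideal.mem_map_of_mem _ hu)

lemma isUnit_natCast_of_ne_zero {S : Type*} [CommRing S] [Algebra ℂ S] {k : ℕ} (hk : k ≠ 0) :
    IsUnit (k : S) := by
  have : IsUnit (k : ℂ) := (Nat.cast_ne_zero.2 hk).isUnit
  simpa using this.map (algebraMap ℂ S)

lemma span_HM_mulVec {d : ℕ} (hd : 2 ≤ d) :
    Ideal.span (Set.range fun i => (HM (UF ι d) *ᵥ X) i) = Jac (UF ι d) := by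
  have hu : IsUnit ((d - 1 : ℕ) : MvPolynomial ι (Co ι d)) :=
    isUnit_natCast_of_ne_zero (by omega)
  apply le_antisymm
  · rw [Ideal.span_le]
    rintro _ ⟨i, rfl⟩
    simp only [HM_mulVec (UF_isHomogeneous d)]
    exact Ideal.mul_mem_left _ _ (Ideal.subset_span ⟨i, rfl⟩)
  · rw [Jac, Ideal.span_le]
    rintro _ ⟨i, rfl⟩
    refine (Ideal.unit_mul_mem_iff_mem _ hu).1 (Ideal.subset_span ⟨i, ?_⟩)
    simp only [HM_mulVec (UF_isHomogeneous d)]

/-- The exponent vector of `X i ^ d`. -/
noncomputable def topMon (d : ℕ) (i : ι) : Mon ι d := ⟨Finsupp.single i d, by simp⟩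

/-- Translation of the coefficient of `X i ^ d`. -/
noncomputable def thetaMap (d : ℕ) (i : ι) :
    MvPolynomial ι (Co ι d) →+* Polynomial (MvPolynomial ι (Co ι d)) :=
  eval₂Hom (eval₂Hom (Polynomial.C.comp (C.comp C))
    fun m => Polynomial.C (C (X m)) + if m = topMon d i then Polynomial.X else 0)
    fun j => Polynomial.C (X j)

/-- Translation of the variable `X k`. -/
noncomputable def etaMap (d : ℕ) (k : ι) :
    MvPolynomial ι (Co ι d) →+* Polynomial (MvPolynomial ι (Co ι d)) :=
  eval₂Hom (Polynomial.C.comp C)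
    fun j => Polynomial.C (X j) + if j = k then Polynomial.X else 0

lemma thetaMap_coeff_zero (d : ℕ) (i : ι) (q : MvPolynomial ι (Co ι d)) :
    (thetaMap d i q).coeff 0 = q := by
  have : Polynomial.constantCoeff.comp (thetaMap d i) = RingHom.id _ := by
    refine MvPolynomial.ringHom_ext' (MvPolynomial.ringHom_ext (fun r => ?_) fun m => ?_)
      fun j => ?_
    · simp [thetaMap]
    · by_cases h : m = topMon d i <;> simp [thetaMap, h]
    · simp [thetaMap]
  exact congrArg (fun φ => φ q) this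

lemma etaMap_coeff_zero (d : ℕ) (k : ι) (q : MvPolynomial ι (Co ι d)) :
    (etaMap d k q).coeff 0 = q := by
  have : Polynomial.constantCoeff.comp (etaMap d k) = RingHom.id _ := by
    refine MvPolynomial.ringHom_ext (fun r => ?_) fun j => ?_
    · simp [etaMap]
    · by_cases h : j = k <;> simp [etaMap, h]
  exact congrArg (fun φ => φ q) this

lemma thetaMap_X (d : ℕ) (i j : ι) : thetaMap d i (X j) = Polynomial.C (X j) := by
  simp [thetaMap]

lemma thetaMap_monomial_one (d : ℕ) (i : ι) (s : ι →₀ ℕ) :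
    thetaMap d i (monomial s 1) = Polynomial.C (monomial s 1) := by
  rw [monomial_eq, C_1, one_mul, Finsupp.prod, map_prod, map_prod]
  simp [thetaMap_X]

lemma thetaMap_pderiv (d : ℕ) (i j : ι) :
    thetaMap d i (pderiv j (UF ι d)) = Polynomial.C (pderiv j (UF ι d)) +
      Polynomial.C (pderiv j (X i ^ d)) * Polynomial.X := by
  have h1 : ∀ m : Mon ι d, pderiv j (monomial m.1 (X m) : MvPolynomial ι (Co ι d)) =
      C (X m) * ((m.1 j : MvPolynomial ι (Co ι d)) * monomial (m.1 - Finsupp.single j 1) 1) := by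
    intro m
    rw [pderiv_monomial, ← map_natCast (C : Co ι d →+* MvPolynomial ι (Co ι d)), C_mul_monomial,
      C_mul_monomial, mul_one]
  have h2 : pderiv j (X i ^ d : MvPolynomial ι (Co ι d)) =
      (((topMon d i).1 j : MvPolynomial ι (Co ι d)) *
        monomial ((topMon d i).1 - Finsupp.single j 1) 1) := by
    rw [X_pow_eq_monomial, pderiv_monomial,
      ← map_natCast (C : Co ι d →+* MvPolynomial ι (Co ι d)), C_mul_monomial, mul_one, one_mul]
    rfl
  have h3 : ∀ m : Mon ι d, thetaMap d i (C (X m)) =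
      Polynomial.C (C (X m)) + if m = topMon d i then Polynomial.X else 0 := by
    intro m; simp [thetaMap]
  rw [UF, map_sum, map_sum, map_sum, h2]
  simp_rw [h1, map_mul, h3, thetaMap_monomial_one, map_natCast, add_mul, Finset.sum_add_distrib,
    ite_mul, zero_mul, Finset.sum_ite_eq', Finset.mem_univ, if_true]
  ring

/-- The shift data of the universal gradient. -/
noncomputable def shiftData {d : ℕ} (hd : 2 ≤ d) :
    ShiftData (X : ι → MvPolynomial ι (Co ι d)) fun i => (HM (UF ι d) *ᵥ X) i where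
  α i := ((d - 1 : ℕ) : MvPolynomial ι (Co ι d)) * ((d : MvPolynomial ι (Co ι d)) * X i ^ (d - 1))
  η := etaMap d
  θ := thetaMap d
  η0 := etaMap_coeff_zero d
  θ0 := thetaMap_coeff_zero d
  ηne k j h := by simp [etaMap, h]
  ηeq k := by simp [etaMap]
  θz := thetaMap_X d
  θne i j h := by
    simp only [HM_mulVec (UF_isHomogeneous d)]
    rw [map_mul, thetaMap_pderiv, pderiv_pow, pderiv_X_of_ne h.symm]
    simp
  θeq i := by
    simp only [HM_mulVec (UF_isHomogeneous d)]
    rw [map_mul, thetaMap_pderiv, pderiv_pow, pderiv_X_self]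
    simp only [map_mul, map_natCast, map_one]
    ring
  hα J i h :=
    (regMod_of_isUnit J (isUnit_natCast_of_ne_zero (by omega))).mul
      ((regMod_of_isUnit J (isUnit_natCast_of_ne_zero (by omega))).mul (h.pow _))

lemma eq_zero_of_mul_hess_mem {d : ℕ} (hd : 2 ≤ d) (a : Co ι d)
    (h : C a * (HM (UF ι d)).det ∈ Jac (UF ι d)) : a = 0 :=
  eq_zero_of_mul_det_mem (shiftData hd) a (by rwa [span_HM_mulVec hd])

lemma exists_sub_mul_hess_mem {d : ℕ} (hd : 2 ≤ d) (u : MvPolynomial ι (Co ι d))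
    (hu : u.IsHomogeneous (Fintype.card ι * (d - 2)))
    (h : ∀ i, ∃ N, X i ^ N * u ∈ Jac (UF ι d)) :
    ∃ a : Co ι d, u - C a * (HM (UF ι d)).det ∈ Jac (UF ι d) := by
  choose N hN using h
  have := exists_sub_mul_det_mem (shiftData hd) (HM_isHomogeneous (UF_isHomogeneous d))
    (Finset.univ.sup N) u hu
  rw [span_HM_mulVec hd] at this
  refine this fun i => ?_
  have hle : N i ≤ Finset.univ.sup N := Finset.le_sup (Finset.mem_univ i)
  obtain ⟨k, hk⟩ := Nat.exists_eq_add_of_le hle
  have e : u * X i ^ (Finset.univ.sup N + 1) = X i ^ (k + 1) * (X i ^ N i * u) := by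
    rw [hk]; ring
  rw [e]
  exact Ideal.mul_mem_left _ _ (hN i)

end Pool.Agent.P.MP_2a8a61_ag
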